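import Mathlib
import Pool.Prelude.Def_F_9cf4a76a

open Ne729cbcb

namespace Pool.Agent.Results.MP_e43e79_nt.Linear

lemma pc_mono (a : ℕ → ℕ) {k k' n n' : ℕ} (hk : k ≤ k') (hn : n ≤ n') :
    pairCount a k n ≤ pairCount a k' n' := by
  apply Finset.card_le_card
  intro p hp
  simp only [Finset.mem_filter, Finset.mem_product, Finset.mem_range] at hp ⊢
  omega

lemma pc_add (a : ℕ → ℕ) {m k n n' : ℕ} (hk : m ≤ k) (hn : n ≤ n') (s : Finset (ℕ × ℕ))
    (hs : ∀ p ∈ s, p.1 ≤ p.2 ∧ m < p.2 ∧ p.2 ≤ k ∧ a p.1 + a p.2 ≤ n') :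
    pairCount a m n + s.card ≤ pairCount a k n' := by
  unfold pairCount
  rw [← Finset.card_union_of_disjoint]
  · apply Finset.card_le_card
    intro p hp
    rcases Finset.mem_union.1 hp with h | h
    · simp only [Finset.mem_filter, Finset.mem_product, Finset.mem_range] at h ⊢
      omega
    · have := hs p h
      simp only [Finset.mem_filter, Finset.mem_product, Finset.mem_range]
      omega
  · rw [Finset.disjoint_left]
    intro p h1 h2
    have := hs p h2
    simp only [Finset.mem_filter, Finset.mem_product, Finset.mem_range] at h1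
    omega

lemma pc_zero (a : ℕ → ℕ) (n : ℕ) : pairCount a 0 n = 0 := by
  unfold pairCount
  rw [Finset.card_eq_zero, Finset.filter_eq_empty_iff]
  intro p hp
  simp only [Finset.mem_product, Finset.mem_range] at hp
  omega

lemma pc_sq (a : ℕ → ℕ) (k n t : ℕ) (h : ∀ i, i ≤ k → a i ≤ n → i < t) :
    pairCount a k n ≤ t * t := by
  have : pairCount a k n ≤ (Finset.range t ×ˢ Finset.range t).card := by
    apply Finset.card_le_card
    intro p hp
    simp only [Finset.mem_filter, Finset.mem_product, Finset.mem_range] at hp ⊢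
    exact ⟨h _ (by omega) (by omega), h _ (by omega) (by omega)⟩
  simpa using this

theorem result : ∀ a : ℕ → ℕ, a 0 = 0 → a 1 = 1 →
    (∀ k : ℕ, 1 ≤ k → IsLeast {n : ℕ | pairCount a k n < n} (a (k + 1))) →
    ∀ m x : ℕ, pairCount a m x ≤ 113 * x := by
  intro a h0 h1 H
  have HA : ∀ k, pairCount a k (a (k + 1)) < a (k + 1) := by
    intro k
    rcases Nat.eq_zero_or_pos k with rfl | hk
    · rw [pc_zero]; simp [h1]
    · exact (H k hk).1
  have HB : ∀ k n, n < a (k + 1) → n ≤ pairCount a k n := by
    intro k n hn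
    rcases Nat.eq_zero_or_pos k with rfl | hk
    · simp only [zero_add, h1] at hn; omega
    · by_contra hc
      have := (H k hk).2 (show pairCount a k n < n by omega)
      omega
  have G : ∀ k n, n ≤ a k → n ≤ pairCount a k n := by
    intro k n hn
    rcases k with _ | j
    · omega
    · rcases Nat.lt_or_ge n (a (j + 1)) with h | h
      · exact le_trans (HB j n h) (pc_mono a (by omega) le_rfl)
      · have e1 := HA j
        have e2 := HB j (n - 1) (by omega)
        have e3 := pc_add a (show j ≤ j + 1 by omega) (show n - 1 ≤ n by omega) {(0, j + 1)}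
          (by intro p hp; rw [Finset.mem_singleton] at hp; subst hp; simp only [h0]; omega)
        rw [Finset.card_singleton] at e3
        omega
  have hm : StrictMono a := by
    apply strictMono_nat_of_lt_succ
    intro k
    by_contra hc
    have e1 := G k (a (k + 1)) (by omega)
    have e2 := HA k
    omega
  have hex : ∀ x, ∃ i, x < a i := fun x =>
    ⟨x + 1, lt_of_lt_of_le (Nat.lt_succ_self x) (hm.le_apply)⟩
  obtain ⟨f, hf⟩ : ∃ f : ℕ → ℕ, ∀ x i, a i ≤ x ↔ i < f x := by
    refine ⟨fun x => Nat.find (hex x), fun x i => ⟨fun h => ?_, fun h => ?_⟩⟩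
    · by_contra hc
      have e1 := Nat.find_spec (hex x)
      have e2 : a (Nat.find (hex x)) ≤ a i := hm.monotone (not_lt.1 hc)
      omega
    · exact not_lt.1 (Nat.find_min (hex x) h)
  have F3 : ∀ y, y ≤ f y * f y := fun y =>
    le_trans (G y y hm.le_apply) (pc_sq a y y _ (fun i _ hi => (hf y i).1 hi))
  have F1 : ∀ m j, pairCount a m (a (j + 1)) ≤ a (j + 1) := by
    intro m j
    have e1 := HA j
    have e2 : pairCount a m (a (j + 1)) ≤ pairCount a j (a (j + 1)) + 1 := by
      unfold pairCount
      refine le_trans (Finset.card_le_card ?_) (Finset.card_insert_le (0, j + 1) _)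
      intro p hp
      simp only [Finset.mem_insert, Finset.mem_filter, Finset.mem_product,
        Finset.mem_range] at hp ⊢
      have e3 : p.2 ≤ j + 1 := hm.le_iff_le.1 (by omega)
      by_cases e4 : p.2 = j + 1
      · left
        have e5 : a p.1 ≤ a 0 := by rw [e4] at hp; omega
        have e6 : p.1 ≤ 0 := hm.le_iff_le.1 e5
        exact Prod.ext (by simpa using e6) e4
      · right
        omega
    omega
  have hadd : ∀ m d, a m + d ≤ a (m + d) := by
    intro m d
    induction d with
    | zero => simp
    | succ d ih =>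
      have : a (m + d) < a (m + (d + 1)) := hm (by omega)
      omega
  have P : ∀ d m, d ≤ m → d * d + 25 * a m ≤ 25 * a (m + d) := by
    intro d
    induction d using Nat.strong_induction_on with
    | _ d ih =>
      intro m hdm
      by_cases hd : d ≤ 25
      · have := hadd m d
        nlinarith
      · obtain ⟨e, he⟩ : ∃ e, e = d / 2 := ⟨_, rfl⟩
        obtain ⟨g, hg⟩ : ∃ g, d = g + e := ⟨d - e, by omega⟩
        have e1 := ih e (by omega) (m + g) (by omega)
        have ek : m + g + e = m + d := by omega
        rw [ek] at e1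
        obtain ⟨y, hy⟩ : ∃ y, a (m + d) = a (m + g) + y :=
          Nat.exists_eq_add_of_le (hm.monotone (by omega))
        have e2 := F3 y
        have e3 : e ≤ 5 * f y := by
          by_contra hc
          have : (5 * f y + 1) * (5 * f y + 1) ≤ e * e := Nat.mul_le_mul (by omega) (by omega)
          nlinarith
        obtain ⟨t, ht⟩ : ∃ t, t = min (f y) (m + 1) := ⟨_, rfl⟩
        have e4 : e ≤ 5 * t := by omega
        have e5 := pc_add a (show m ≤ m + d by omega) (hm.monotone (show m ≤ m + d by omega))
          (Finset.range t ×ˢ Finset.Ioc m (m + g)) (by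
            intro p hp
            simp only [Finset.mem_product, Finset.mem_range, Finset.mem_Ioc] at hp
            have b1 : a p.1 ≤ y := (hf y p.1).2 (by omega)
            have b2 : a p.2 ≤ a (m + g) := hm.monotone hp.2.2
            omega)
        rw [Finset.card_product, Finset.card_range, Nat.card_Ioc, Nat.add_sub_cancel_left] at e5
        have e6 := G m (a m) le_rfl
        have e7 := F1 (m + d) (m + d - 1)
        rw [show m + d - 1 + 1 = m + d by omega] at e7
        have e8 : e * g ≤ 5 * t * g := Nat.mul_le_mul_right _ e4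
        have e9 : d * d ≤ 5 * (e * g) := by
          have c1 : d ≤ 2 * e + 1 := by omega
          have c2 : d ≤ 2 * g := by omega
          have c3 : d * d ≤ (2 * e + 1) * (2 * g) := Nat.mul_le_mul c1 c2
          have c4 : 2 * g ≤ e * g := Nat.mul_le_mul_right _ (by omega)
          nlinarith
        nlinarith
  intro m x
  have hx0 : 0 < f x := (hf x 0).1 (by omega)
  obtain ⟨k, hk⟩ : ∃ k, f x = k + 1 := ⟨f x - 1, by omega⟩
  have e1 : a k ≤ x := (hf x k).2 (by omega)
  have e2 : x < a (k + 1) := by
    have := hf x (k + 1)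
    omega
  rcases Nat.eq_zero_or_pos x with rfl | hx
  · have := pc_add a (show m ≤ m + 1 by omega) (show 0 ≤ a 1 by omega) ∅ (by simp)
    unfold pairCount
    rw [Nat.mul_zero, Nat.le_zero, Finset.card_eq_zero, Finset.filter_eq_empty_iff]
    intro p _ hp
    have : a 1 ≤ a p.2 := hm.monotone hp.2.1
    omega
  have e3 : pairCount a m x ≤ a (k + 1) := le_trans (pc_mono a le_rfl e2.le) (F1 m k)
  have e4 := HB k (a (k + 1) - 1) (by omega)
  have e5 := pc_sq a k (a (k + 1) - 1) (k + 1) (fun i hi _ => by omega)
  obtain ⟨q, hq⟩ : ∃ q, q = k / 2 := ⟨_, rfl⟩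
  have e6 := P q (k - q) (by omega)
  rw [show k - q + q = k by omega] at e6
  have e7 : k ≤ a k := hm.le_apply
  have e8 : (k + 1) * (k + 1) ≤ (2 * q + 2) * (2 * q + 2) := Nat.mul_le_mul (by omega) (by omega)
  have e9 : q ≤ x := by omega
  have e10 : q * q ≤ 25 * x := by omega
  have e11 : a (k + 1) ≤ (k + 1) * (k + 1) + 1 := by omega
  nlinarith

end Pool.Agent.Results.MP_e43e79_nt.Linear
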